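import Pool.Agent.Lib.MP_bda2fe_al.Down

/-!
# The answers are the same for all non-zero algebras over a field

For a commutative ring `Φ` let `A` be the free alternative `Φ`-algebra on countably many letters, `N(A)` its nucleus, `Z(A)` its center,
`ZN(A)` the ideal generated by `[N(A), A]` and `U(A)` the largest ideal contained in `N(A)`. Q1 asks for each `Φ` which of them are finitely
generated, `N(A)` and `Z(A)` as completely characteristic subalgebras, `ZN(A)` and `U(A)` as T-ideals.

If `Φ` and `Ψ` are non-zero and contain the same field `k`, then the four answers for `Φ` and `Ψ` are the same. So there is one case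
for all non-zero algebras over `ℚ`, and for each prime `p` one case for all rings of characteristic `p`; finite fields are allowed.

Proof. It is enough to compare `Φ` with `k`. The objects over `Φ` are the extensions of scalars of those over `k`, which gives one
direction. Let `S` be the finite set of the coordinates of generators over `Φ`, with respect to a
basis of `Φ` over `k`. An endomorphism of `Φ ⊗ A` maps `1 ⊗ s` to a specialisation of `s(∑_i t_(m,i) ⊗ x_(m,i))`, an element of `k[t] ⊗ A`,
where the number of summands is not bounded. If `s` has degree at most `d`, then each coefficient, that is the factor of a monomial in `t`,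
is the image under an endomorphism of `A` of a coefficient of the substitution with `d` summands. So the finitely many coefficients of the
substitutions with `d` summands for `s ∈ S` are generators over `k`; they are in `N(A)` (in `Z(A)`, `ZN(A)`, `U(A)`), since the
corresponding subset of the free alternative algebra `k[t] ⊗ A` over `k[t]` is completely characteristic.
-/

namespace Pool.Agent.Results.MP_bda2fe_al.BaseRing

open Pool.Agent.Lib.MP_bda2fe_al

/-- **Main theorem.** For a field `k` and non-zero commutative `k`-algebras `Φ`, `Ψ` each of the four objects is finitely generated over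
`Φ` if and only if it is over `Ψ`. -/
theorem result (k Φ Ψ : Type) [Field k] [CommRing Φ] [Nontrivial Φ] [Algebra k Φ] [CommRing Ψ] [Nontrivial Ψ] [Algebra k Ψ]
    (A B : Type) [NonUnitalNonAssocRing A] [Module Φ A] [SMulCommClass Φ A A] [IsScalarTower Φ A A]
    [NonUnitalNonAssocRing B] [Module Ψ B] [SMulCommClass Ψ B B] [IsScalarTower Ψ B B] (x : ℕ → A) (y : ℕ → B)
    (hA : IsFreeAlt Φ A x) (hB : IsFreeAlt Ψ B y) :
    (FinGenSub (nucleus Φ A) ↔ FinGenSub (nucleus Ψ B)) ∧ (FinGenSub (cent Φ A) ↔ FinGenSub (cent Ψ B)) ∧
      (FinGenIdeal (ZN Φ A) ↔ FinGenIdeal (ZN Ψ B)) ∧ (FinGenIdeal (U Φ A) ↔ FinGenIdeal (U Ψ B)) := by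
  obtain ⟨C, _, _, _, _, z, hC⟩ := exists_free k
  obtain ⟨a1, a2, a3, a4⟩ := field_iff hC hA
  obtain ⟨b1, b2, b3, b4⟩ := field_iff hC hB
  exact ⟨a1.trans b1.symm, a2.trans b2.symm, a3.trans b3.symm, a4.trans b4.symm⟩

end Pool.Agent.Results.MP_bda2fe_al.BaseRing
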