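import Pool.Agent.Lib.MP_bda2fe_al.Flat2

/-!
# Flat extensions of the ring of scalars

For a commutative ring `Φ` let `A` be the free alternative `Φ`-algebra on countably many letters, `N(A)` its nucleus, `Z(A)` its center,
`ZN(A)` the ideal generated by `[N(A), A]` and `U(A)` the largest ideal contained in `N(A)`. If one of them is finitely generated over
`R` (`N(A)` and `Z(A)` as completely characteristic subalgebras, `ZN(A)` and `U(A)` as T-ideals), then it is finitely generated over
every flat commutative `R`-algebra `Φ`; for example from `ℤ` to all torsion-free rings.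

Proof. The free algebra over `Φ` is `Φ ⊗ A`, where `A` is the one over `R`. An element `n` in which only `x_0, …, x_(r-1)` occur is
in the nucleus if and only if `(n, x_r, x_(r+1)) = 0`; as `Φ` is flat, `N(Φ ⊗ A)` is the image of `Φ ⊗ N(A)`. Similarly for the center, and
for `U`, which is the set of the nuclear elements which annihilate the associators `(x_r, x_(r+1), x_(r+2))`. Endomorphisms of `A` extend to
`Φ ⊗ A`, so generators over `R` are generators over `Φ`.
-/

namespace Pool.Agent.Results.MP_bda2fe_al.FlatBaseChange

open Pool.Agent.Lib.MP_bda2fe_al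

/-- **Main theorem.** If one of the four objects is finitely generated over `R`, then it is over each flat commutative `R`-algebra `Φ`. -/
theorem result (R Φ : Type) [CommRing R] [CommRing Φ] [Algebra R Φ] [Module.Flat R Φ]
    (A B : Type) [NonUnitalNonAssocRing A] [Module R A] [SMulCommClass R A A] [IsScalarTower R A A]
    [NonUnitalNonAssocRing B] [Module Φ B] [SMulCommClass Φ B B] [IsScalarTower Φ B B] (x : ℕ → A) (y : ℕ → B)
    (hA : IsFreeAlt R A x) (hB : IsFreeAlt Φ B y) :
    (FinGenSub (nucleus R A) → FinGenSub (nucleus Φ B)) ∧ (FinGenSub (cent R A) → FinGenSub (cent Φ B)) ∧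
      (FinGenIdeal (ZN R A) → FinGenIdeal (ZN Φ B)) ∧ (FinGenIdeal (U R A) → FinGenIdeal (U Φ B)) :=
  flat_up hA hB

end Pool.Agent.Results.MP_bda2fe_al.FlatBaseChange
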