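import Pool.Agent.Lib.MP_bda2fe_al.WitK
import Pool.Agent.Lib.MP_bda2fe_al.NGlue
import Pool.Agent.Lib.MP_bda2fe_al.Wit29
import Pool.Agent.Lib.MP_bda2fe_al.NTable

/-!
# The nucleus and the largest nuclear ideal are not finitely generated over some rings

Let `k` be a commutative ring in which `9` is not a multiple of `27`, for example `ℤ`, and let `E = k[t_i : i ∈ ι] / (t_i t_j, r t_i :
r ∈ J i)` with `J i = 9 k` for infinitely many `i`, for example `ℤ[t_0, t_1, …] / (t_i t_j, 9 t_i)` or the ring `TestRing ℤ` of
`OneRing`. Over `E` the nucleus of the free alternative algebra is not finitely generated as a completely characteristic subalgebra, and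
the largest nuclear ideal is not finitely generated as a T-ideal.

Proof. Let `ν(x; y, w) = [y, x] ∘ [w, x²] - [w, x] ∘ [y, x²]`. In every alternative ring `ν` is in the nucleus, and `120 ν (d, s, t)` is a
multiple of `9`: modulo `9` the element `F(y, w, d, s, t) = ν(x; y, w) (d, s, t)` is alternating in its five letters, and an identity of
alternative superrings, with one even letter `x` and one odd letter `y`, says that `F` is `3` times a sum which is itself divisible by
`3` after the alternation. So `n = 120 ν` and `n d` are in the largest nuclear ideal over `k / 9`. They do not lift to nuclear elements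
over `k`: there is an alternative ring `R` over `ℤ / 27`, the even part of the Grassmann extension of an alternative superalgebra of
dimension 94, with elements such that `(n d, s, t)` is not of the form `9 (β, s, t)`. If `S` is a finite subset of the free algebra over
`E`, some `t = t_i` with `J i = 9 k` does not occur in `S`; the elements whose image under `t_i ↦ ε`, `t_j ↦ 0`, in the free algebra over
`(k / 9)[ε]`, is in the submodule generated by the object over `k` are a completely characteristic subalgebra (ideal). It contains `S`
but not `t n d` (`t n`), which is in the object over `E`.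
-/

namespace Pool.Agent.Results.MP_bda2fe_al.NotFinitelyGenerated

open Pool.Agent.Lib.MP_bda2fe_al

/-- **Main theorem.** Let `k` be a commutative ring with `9 ∉ 27 k`, and let `E = k[t_i : i ∈ ι] / (t_i t_j, r t_i : r ∈ J i)` with
`J i = 9 k` for infinitely many `i`. Over `E` neither the nucleus of the free alternative algebra is finitely generated as a completely
characteristic subalgebra, nor its largest nuclear ideal as a T-ideal. -/
theorem result (k : Type) [CommRing k] (h9 : (9 : k) ∉ Ideal.span {(27 : k)}) (ι : Type) (J : ι → Ideal k)
    (hJ : {i | J i = Ideal.span {(9 : k)}}.Infinite) (B : Type) [NonUnitalNonAssocRing B] [Module (TR k ι J) B]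
    [SMulCommClass (TR k ι J) B B] [IsScalarTower (TR k ι J) B B] (y : ℕ → B) (hB : IsFreeAlt (TR k ι J) B y) :
    ¬ FinGenSub (nucleus (TR k ι J) B) ∧ ¬ FinGenIdeal (U (TR k ι J) B) := by
  obtain ⟨S, _, hS, x, y', hx, hy, ψ0, hF, hU⟩ := table
  obtain ⟨R, _, hR, a, b, c, d, s, t, ψ, h3, h4⟩ := wit29 S hS x y' hx hy ψ0 hF hU
  exact NU.no_lift k h9 (fun C _ hC a b c u v => ⟨0, by rw [smul_zero]; exact NuE.nu_nuc hC a b c u v⟩)
    (fun C _ hC => NC.h2 C hC) R hR a b c d s t ψ h3 h4 ι J hJ B y hB

end Pool.Agent.Results.MP_bda2fe_al.NotFinitelyGenerated
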