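import Pool.Agent.Lib.MP_bda2fe_al.Final

/-!
# One ring decides the question for all rings

Let `k` be a principal ideal domain, for example `ℤ`, and let `TestRing k` be the ring `k[t_(c,m) : c ∈ k, m ∈ ℕ]` modulo all products
of two letters and all `c t_(c,m)`. For each of the four objects (the nucleus, the center, the ideals `ZN` and `U`) of free alternative
algebras the following are equivalent: the object is finitely generated over the one ring `TestRing k`; it is finitely generated over
every commutative `k`-algebra; there is one finite set in the free algebra over `k` which generates it over all commutative
`k`-algebras `Φ` at once, and the object over `Φ` is the `Φ`-submodule generated by the image of the one over `k`.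

So the question for all rings together is the question for the one ring `TestRing ℤ`, and an element, for example nuclear over the field
with `p` elements, which is not a combination of images of nuclear elements over `ℤ`, would show that the nucleus is not finitely
generated over `TestRing ℤ`.

Proof. Let `E = TestRing k` and let `O(E)` be generated by a finite set `S`. Let `c ∈ k`, and choose `m` such that `t = t_(c,m)` does not
occur in `S`. Over each commutative `k`-algebra `D` the `D`-submodule `O'(D)` generated by `O(k)` is completely characteristic, because
`D` is a quotient of a polynomial ring, which is flat, and the objects commute with flat extensions. Let `D = (k/c)[ε]`, and let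
`E → D` be given by `t ↦ ε` and `t' ↦ 0` for the other letters. The elements with image in `O'(D)` are a completely characteristic
subalgebra (ideal) which contains `S`. If `y` is in the object over `k/c`, then `t y` is in `O(E)`. So `ε y` is in `O'(D)`, and `y` is
in `O'(k/c)`. The objects over `Φ` come from those over the rings `k/c`, since they are given by linear equations with fresh letters and
finitely generated `k`-modules are direct sums of cyclic modules. The projection `E → k` gives generators over `k`.
-/

namespace Pool.Agent.Results.MP_bda2fe_al.OneRing

open Pool.Agent.Lib.MP_bda2fe_al

/-- **Main theorem.** Finite generation over the ring `TestRing k` is equivalent to finite generation over all commutative `k`-algebras,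
and to uniform finite generation. -/
theorem result (k A B : Type) [CommRing k] [IsDomain k] [IsPrincipalIdealRing k]
    [NonUnitalNonAssocRing A] [Module k A] [SMulCommClass k A A] [IsScalarTower k A A]
    [NonUnitalNonAssocRing B] [Module (TestRing k) B] [SMulCommClass (TestRing k) B B] [IsScalarTower (TestRing k) B B]
    (x : ℕ → A) (y : ℕ → B) (hA : IsFreeAlt k A x) (hB : IsFreeAlt (TestRing k) B y) :
    [FinGenSub (nucleus (TestRing k) B), EverySub nucleus k, UniformSub nucleus k x].TFAE ∧
      [FinGenSub (cent (TestRing k) B), EverySub cent k, UniformSub cent k x].TFAE ∧
      [FinGenIdeal (ZN (TestRing k) B), EveryIdeal ZN k, UniformIdeal ZN k x].TFAE ∧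
      [FinGenIdeal (U (TestRing k) B), EveryIdeal U k, UniformIdeal U k x].TFAE :=
  ⟨tfae_sub good_nucleus cyclic_nucleus hA hB, tfae_sub good_cent cyclic_cent hA hB, tfae_ideal good_ZN cyclic_ZN hA hB,
    tfae_U hA hB⟩

end Pool.Agent.Results.MP_bda2fe_al.OneRing
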